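import Mathlib
import Pool.Agent.H14.Ck2

namespace Pool.Agent.Results.MP_c8e9c8_co.Cookie

open Pool.Agent.H14.Ck1

/-- Remove one heap of size h and lower every other positive heap by one (zero heaps stay zero). -/
def move (X : Multiset ℕ) (h : ℕ) : Multiset ℕ := (X.erase h).map (fun k => k - 1)

/-- Grundy value: the least natural number that is not the value of an option. -/
noncomputable def grundy (X : Multiset ℕ) : ℕ :=
  sInf {v | ∀ h : ℕ, ∀ _ : h ∈ X, 0 < h → grundy (move X h) ≠ v}
termination_by X.card
decreasing_by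
  rename_i hh _
  simp only [move, Multiset.card_map]
  exact Multiset.card_erase_lt_of_mem hh

/-- The position with the n heaps a, a+1, ..., a+n-1. -/
def A (a n : ℕ) : Multiset ℕ := (Multiset.range n).map (fun i => a + i)

def g (m : ℕ) : ℕ :=
  if m % 6 = 1 ∨ m % 6 = 4 then 0 else if m % 6 = 2 ∨ m % 6 = 5 then 1
  else if m % 6 = 3 then 2 else 3

lemma St_congr {x y : ℕ → Bool} (h : ∀ i, 0 < i → x i = y i) : ∀ n q, St x n q = St y n q
  | 0, _ => rfl
  | n + 1, q => by simp only [St, St_congr h n (q + 1), h (q + 1) (by omega)]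

lemma count_move (X : Multiset ℕ) (h i : ℕ) (hi : 0 < i) :
    (move X h).count i = (X.erase h).count (i + 1) := by
  unfold move
  rw [Multiset.count_map, ← Multiset.countP_eq_card_filter, Multiset.count]
  apply Multiset.countP_congr rfl
  intro k _
  simp only [eq_iff_iff]
  omega

lemma main : ∀ (m : ℕ) (X : Multiset ℕ), (∀ i ∈ X, i ≤ m) → (∀ i, 0 < i → X.count i ≤ 1) →
    grundy X = V (fun i => decide (i ∈ X)) m
  | 0, X, h1, _ => by
    rw [grundy]
    have : V (fun i => decide (i ∈ X)) 0 = 0 := by simp [V, St, val]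
    rw [this]
    apply Nat.eq_zero_of_le_zero
    apply Nat.sInf_le
    intro h hh h0
    have := h1 h hh
    omega
  | m + 1, X, h1, h2 => by
    have key : ∀ h ∈ X, 0 < h → grundy (move X h) = V (sh (fun i => decide (i ∈ X)) h) m := by
      intro h hh h0
      rw [main m (move X h)]
      · unfold V
        rw [St_congr (y := sh (fun i => decide (i ∈ X)) h)]
        intro i hi
        have e := count_move X h i hi
        have e2 := h2 (i + 1) (by omega)
        simp only [sh]
        by_cases hq : i + 1 = h
        · subst hq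
          rw [Multiset.count_erase_self] at e
          have : i ∉ move X (i + 1) := by
            rw [← Multiset.count_eq_zero]
            omega
          simp [this]
        · rw [Multiset.count_erase_of_ne hq] at e
          have : i ∈ move X h ↔ i + 1 ∈ X := by
            rw [← Multiset.count_pos, ← Multiset.count_pos, e]
          simp [this, hq]
      · intro i hi
        obtain ⟨k, hk, rfl⟩ := Multiset.mem_map.mp hi
        have := h1 k (Multiset.mem_of_mem_erase hk)
        omega
      · intro i hi
        rw [count_move X h i hi]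
        exact le_trans (Multiset.count_le_of_le _ (Multiset.erase_le h X)) (h2 _ (by omega))
    rw [grundy]
    have mem : V (fun i => decide (i ∈ X)) (m + 1) ∈
        {v | ∀ h : ℕ, ∀ _ : h ∈ X, 0 < h → grundy (move X h) ≠ v} := by
      intro h hh h0
      rw [key h hh h0]
      exact V_ne _ m h h0 (h1 h hh) (by simpa using hh)
    apply le_antisymm (Nat.sInf_le mem)
    by_contra hc
    obtain ⟨h, a1, -, a3, a4⟩ := V_ex _ m _ (not_le.mp hc)
    have hh : h ∈ X := by simpa using a3
    exact Nat.sInf_mem ⟨_, mem⟩ h hh a1 ((key h hh a1).trans a4)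

lemma St_A (a n : ℕ) (ha : 1 ≤ a) (hn : 2 * a ≤ n + 2) (x : ℕ → Bool)
    (hx : ∀ i, x i = decide (a ≤ i ∧ i < a + n)) : ∀ k q, k + q + 1 = a + n →
    (St x k q).1 = (if a ≤ q + 1 then k else n + 2 * (q + 1) - 2 * a) ∧ (St x k q).2.1 = 0 ∧
    (St x k q).2.2 = if q + 1 ≤ (a + n) / 3 ∧ a ≤ (a + n) / 3 then
      (if (a + n) / 3 % 2 = 1 then 1 else 2) else 0
  | 0, q, h => by
    simp only [St]
    refine ⟨?_, trivial, ?_⟩ <;> split_ifs <;> omega
  | k + 1, q, h => by
    obtain ⟨i1, i2, i3⟩ := St_A a n ha hn x hx k (q + 1) (by omega)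
    simp only [St, hx]
    generalize (St x k (q + 1)).1 = c at *
    generalize (St x k (q + 1)).2.1 = T at *
    generalize (St x k (q + 1)).2.2 = D at *
    by_cases hq : a ≤ q + 1
    · have : decide (a ≤ q + 1 ∧ q + 1 < a + n) = true := by
        simp only [decide_eq_true_eq]
        omega
      simp only [this, sc, sT, sD, if_true]
      refine ⟨?_, i2, ?_⟩ <;> split_ifs at i1 i3 ⊢ <;> omega
    · have : decide (a ≤ q + 1 ∧ q + 1 < a + n) = false := by
        simp only [decide_eq_false_iff_not]
        omega
      simp only [this, sc, sT, sD, Bool.false_eq_true, if_false]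
      refine ⟨?_, ?_, ?_⟩ <;> split_ifs at i1 i3 ⊢ <;> omega

theorem result (a n : ℕ) (ha : 1 ≤ a) (hn : 2 ≤ n) (h : 2 * a - 2 ≤ n) :
    grundy (A a n) = g (a + n) := by
  have mem : ∀ i, i ∈ A a n ↔ a ≤ i ∧ i < a + n := by
    intro i
    simp only [A, Multiset.mem_map, Multiset.mem_range]
    constructor
    · rintro ⟨k, hk, rfl⟩
      omega
    · intro hi
      exact ⟨i - a, by omega, by omega⟩
  have nd : (A a n).Nodup :=
    (Multiset.nodup_range n).map (fun i j hij => by simpa using hij)
  rw [main (a + n - 1) (A a n) (fun i hi => by have := (mem i).mp hi; omega)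
    (fun i _ => Multiset.nodup_iff_count_le_one.mp nd i)]
  obtain ⟨i1, i2, i3⟩ := St_A a n ha (by omega) (fun i => decide (i ∈ A a n))
    (fun i => by simp only [mem]) (a + n - 1) 0 (by omega)
  simp only [V, val, g]
  generalize (St (fun i => decide (i ∈ A a n)) (a + n - 1) 0).1 = c at *
  generalize (St (fun i => decide (i ∈ A a n)) (a + n - 1) 0).2.1 = T at *
  generalize (St (fun i => decide (i ∈ A a n)) (a + n - 1) 0).2.2 = D at *
  clear mem nd
  split_ifs at i1 i3 ⊢ <;> omega

end Pool.Agent.Results.MP_c8e9c8_co.Cookie
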